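import Pool.Agent.MP_c8dfda_nt.tg.Pad

/-! Orbits of subexponential size at every place are polynomial along progressions. -/

namespace Pool.Agent.MP_c8dfda_nt.TG

open NumberField Filter Function Height

variable {K : Type*} [Field K] [NumberField K]

/-- The absolute value belongs to a place. -/
def Pl (v : AbsoluteValue K ℝ) : Prop :=
  (∃ w : InfinitePlace K, w.1 = v) ∨ ∃ w : FinitePlace K, w.1 = v

theorem fp_le (S : Finset (FinitePlace K)) (f : FinitePlace K → ℝ) {B : ℝ} (hB : 1 ≤ B)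
    (h0 : ∀ v, 0 ≤ f v) (h1 : ∀ v ∈ S, f v ≤ B) (h2 : ∀ v ∉ S, f v ≤ 1) :
    ∏ᶠ v, f v ≤ B ^ S.card := by
  classical
  by_cases hf : f.HasFiniteMulSupport
  · have e : ∏ᶠ v, (if v ∈ S then B else 1) = B ^ S.card := by
      rw [finprod_eq_prod_of_mulSupport_subset (s := S) _ fun v hv => by
        by_contra c
        exact hv (if_neg c), Finset.prod_congr rfl fun v hv => if_pos hv, Finset.prod_const]
    rw [← e]
    refine finprod_le_finprod hf h0 (S.finite_toSet.subset fun v hv => ?_) fun v => ?_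
    · by_contra c
      exact hv (if_neg c)
    · dsimp only
      split_ifs with c
      exacts [h1 v c, h2 v c]
  · rw [finprod_of_infinite_mulSupport hf]
    exact one_le_pow₀ hB

theorem Pl.le_height {v : AbsoluteValue K ℝ} (hv : Pl v) (x : K) : v x ≤ mulHeight₁ x := by
  classical
  by_cases hx : x = 0
  · simp [hx]
  have a1 : ∀ w : InfinitePlace K, 1 ≤ max (w x) 1 ^ w.mult := fun w =>
    one_le_pow₀ (le_max_right _ _)
  have a2 : 1 ≤ ∏ w : InfinitePlace K, max (w x) 1 ^ w.mult := Finset.one_le_prod fun w _ => a1 w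
  have a3 : 1 ≤ ∏ᶠ w : FinitePlace K, max (w x) 1 := one_le_finprod fun _ => le_max_right _ _
  rw [NumberField.mulHeight₁_eq]
  rcases hv with ⟨w, rfl⟩ | ⟨w, rfl⟩
  · refine le_trans ?_ (le_mul_of_one_le_right (by positivity) a3)
    have b : max (w x) 1 ^ w.mult ≤ ∏ w : InfinitePlace K, max (w x) 1 ^ w.mult := by
      simpa using Finset.prod_le_prod_of_subset_of_one_le
        (f := fun w : InfinitePlace K => max (w x) 1 ^ w.mult) (Finset.subset_univ {w})
        (fun _ _ => by positivity) fun u _ _ => a1 u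
    exact (le_max_left (w x) 1).trans ((le_self_pow₀ (le_max_right _ _) w.mult_pos.ne').trans b)
  · refine le_trans ?_ (le_mul_of_one_le_left (by positivity) a2)
    rw [finprod_eq_prod_of_mulSupport_subset
      (s := insert w (FinitePlace.hasFiniteMulSupport hx).toFinset) _ fun u hu => by
        simp only [Finset.coe_insert, Set.Finite.coe_toFinset]
        exact Or.inr fun e => hu (by simp only [show u x = 1 from e, max_self])]
    refine (le_max_left (w x) 1).trans ?_
    simpa using Finset.prod_le_prod_of_subset_of_one_le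
      (f := fun w : FinitePlace K => max (w x) 1)
      (Finset.singleton_subset_iff.2 (Finset.mem_insert_self w _))
      (fun _ _ => by positivity) fun _ _ _ => le_max_right _ _

theorem fin_int (v : FinitePlace K) {x : K} (h : IsIntegral ℤ x) : v x ≤ 1 := by
  have := FinitePlace.norm_le_one K v.maximalIdeal (⟨x, h⟩ : 𝓞 K)
  rwa [FinitePlace.norm_embedding_eq] at this

theorem fin_sub (v : FinitePlace K) {x y : K} {t : ℝ} (hx : v x ≤ t) (hy : v y ≤ t) :
    v (x - y) ≤ t := by
  rw [sub_eq_add_neg]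
  exact (v.add_le _ _).trans (max_le hx (by rwa [map_neg_eq_map]))

/-- A modulus for a finitely generated ring of algebraic numbers. -/
theorem exists_mod (t : Finset K) : ∃ (p : ℕ) (S : Finset (FinitePlace K)), 3 ≤ p ∧
    (∀ v ∈ S, v p = 1) ∧ (∀ v ∉ S, ∀ a ∈ Algebra.adjoin ℤ (t : Set K), v a ≤ 1) ∧
    Finite (Algebra.adjoin ℤ (t : Set K) ⧸ Ideal.span {(p : Algebra.adjoin ℤ (t : Set K))}) := by
  obtain ⟨y, y0, hy⟩ := exists_integral_multiples ℤ ℚ t
  obtain ⟨D, D0, hD⟩ : ∃ D : ℕ, D ≠ 0 ∧ ∀ x ∈ t, IsIntegral ℤ ((D : K) * x) := by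
    refine ⟨y.natAbs, by simpa using y0, fun x hx => ?_⟩
    have := hy x hx
    rw [zsmul_eq_mul] at this
    rcases Int.natAbs_eq y with e | e
    · rwa [e, Int.cast_natCast] at this
    · rw [e, Int.cast_neg, Int.cast_natCast, neg_mul] at this
      simpa using this.neg
  have DI : ∀ e : ℕ, IsIntegral ℤ ((D : K) ^ e) := fun e => (isIntegral_natCast D).pow e
  have hA : ∀ a ∈ Algebra.adjoin ℤ (t : Set K), ∃ e : ℕ, IsIntegral ℤ ((D : K) ^ e * a) := by
    intro a ha
    induction ha using Algebra.adjoin_induction with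
    | mem x hx => exact ⟨1, by simpa using hD x hx⟩
    | algebraMap r => exact ⟨0, by simpa using isIntegral_intCast (B := K) r⟩
    | add x y _ _ hx hy =>
      obtain ⟨e, he⟩ := hx
      obtain ⟨f, hf⟩ := hy
      refine ⟨e + f, ?_⟩
      rw [show (D : K) ^ (e + f) * (x + y) = D ^ f * (D ^ e * x) + D ^ e * (D ^ f * y) by ring]
      exact ((DI f).mul he).add ((DI e).mul hf)
    | mul x y _ _ hx hy =>
      obtain ⟨e, he⟩ := hx
      obtain ⟨f, hf⟩ := hy
      refine ⟨e + f, ?_⟩
      rw [show (D : K) ^ (e + f) * (x * y) = D ^ e * x * (D ^ f * y) by ring]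
      exact he.mul hf
  have D0' : (D : K) ≠ 0 := by exact_mod_cast D0
  refine ⟨1 + 2 * D, (FinitePlace.hasFiniteMulSupport D0').toFinset, by omega, fun v hv => ?_,
    fun v hv a ha => ?_, ?_⟩
  · have h1 : v (D : K) < 1 :=
      lt_of_le_of_ne (fin_int v (isIntegral_natCast D)) (by simpa using hv)
    have h2 : v (2 * D : K) < 1 := by
      rw [map_mul]
      have := fin_int v (isIntegral_natCast (B := K) 2)
      rw [Nat.cast_ofNat] at this
      exact (mul_le_of_le_one_left (apply_nonneg _ _) this).trans_lt h1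
    refine le_antisymm (fin_int v (isIntegral_natCast _)) ?_
    have h3 := v.add_le ((1 + 2 * D : ℕ) : K) (-(2 * D))
    rw [map_neg_eq_map, show ((1 + 2 * D : ℕ) : K) + -(2 * D) = 1 by push_cast; ring, map_one] at h3
    exact (le_max_iff.1 h3).resolve_right h2.not_ge
  · obtain ⟨e, he⟩ := hA a ha
    have h1 : v (D : K) = 1 := by simpa using hv
    have := fin_int v he
    rwa [map_mul, map_pow, h1, one_pow, one_mul] at this
  · set A := Algebra.adjoin ℤ (t : Set K)
    set J : Ideal A := Ideal.span {((1 + 2 * D : ℕ) : A)}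
    have z : ((1 + 2 * D : ℕ) : A ⧸ J) = 0 := by
      rw [← map_natCast (Ideal.Quotient.mk J), Ideal.Quotient.eq_zero_iff_mem]
      exact Ideal.mem_span_singleton_self _
    have : Algebra.FiniteType ℤ A := (Subalgebra.fg_iff_finiteType _).1 ⟨t, rfl⟩
    have : Algebra.IsIntegral ℤ (A ⧸ J) := ⟨fun b => by
      obtain ⟨a, rfl⟩ := Ideal.Quotient.mk_surjective b
      obtain ⟨e, he⟩ := hA a a.2
      have h1 : IsIntegral ℤ ((D : A) ^ e * a) :=
        (isIntegral_algHom_iff A.val Subtype.val_injective).1 (by simpa using he)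
      have h2 := h1.map (Ideal.Quotient.mkₐ ℤ J)
      have h3 : (-2 * D : A ⧸ J) = 1 := by
        push_cast at z
        linear_combination -z
      have h4 : Ideal.Quotient.mk J a =
          ((-2 : ℤ) : A ⧸ J) ^ e * Ideal.Quotient.mkₐ ℤ J ((D : A) ^ e * a) := by
        simp only [Ideal.Quotient.mkₐ_eq_mk, map_mul, map_pow, map_natCast]
        push_cast
        rw [← mul_assoc, ← mul_pow, h3, one_pow, one_mul]
      rw [h4]
      exact ((isIntegral_intCast _).pow e).mul h2⟩
    have : Module.Finite ℤ (A ⧸ J) := Algebra.IsIntegral.finite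
    refine Module.finite_of_fg_torsion _ fun b => ⟨⟨((1 + 2 * D : ℕ) : ℤ), ?_⟩, ?_⟩
    · exact mem_nonZeroDivisors_of_ne_zero (by omega)
    · change ((1 + 2 * D : ℕ) : ℤ) • b = 0
      rw [zsmul_eq_mul, Int.cast_natCast, z, zero_mul]

omit [NumberField K] in
theorem diff_le {f : K → ℝ} {c B : ℝ} (hc : ∀ x y t, f x ≤ t → f y ≤ t → f (x - y) ≤ c * t)
    (y : ℕ → K) (j : ℕ) : ∀ a, (∀ k, a ≤ k → k ≤ a + j → f (y k) ≤ B) →
      f ((fwdDiff 1)^[j] y a) ≤ c ^ j * B := by
  induction j with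
  | zero => exact fun a h => by simpa using h a le_rfl le_rfl
  | succ j ih =>
    intro a h
    rw [iterate_succ_apply', pow_succ', mul_assoc]
    exact hc _ _ _ (ih _ fun k u v => h k (by omega) (by omega))
      (ih _ fun k u v => h k u (by omega))

/-- The shift of sequences. -/
def shf : (ℕ → K) →+* (ℕ → K) := RingHom.pi fun n => Pi.evalRingHom _ (n + 1)

omit [NumberField K] in
theorem shf_mem {s : Finset (ℕ → K)}
    (hs : ∀ g ∈ s, (fun n => g (n + 1)) ∈ Algebra.adjoin ℤ (s : Set (ℕ → K))) {g : ℕ → K}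
    (hg : g ∈ Algebra.adjoin ℤ (s : Set (ℕ → K))) :
    shf g ∈ Algebra.adjoin ℤ (s : Set (ℕ → K)) := by
  induction hg using Algebra.adjoin_induction with
  | mem x hx => exact hs x hx
  | algebraMap r => exact Subalgebra.algebraMap_mem _ r
  | add x y _ _ hx hy => rw [map_add]; exact add_mem hx hy
  | mul x y _ _ hx hy => rw [map_mul]; exact mul_mem hx hy

/-- Subexponential size at every place. -/
def Slow (g : ℕ → K) : Prop :=
  ∀ v : AbsoluteValue K ℝ, Pl v → ∀ ε : ℝ, 0 < ε → ∀ᶠ n : ℕ in atTop, v (g n) ≤ Real.exp (ε * n)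

theorem gap (s : Finset (ℕ → K))
    (hs : ∀ g ∈ s, (fun n => g (n + 1)) ∈ Algebra.adjoin ℤ (s : Set (ℕ → K))) :
    ∃ S : Finset (FinitePlace K),
      (∀ v ∉ S, ∀ g ∈ Algebra.adjoin ℤ (s : Set (ℕ → K)), ∀ n, v (g n) ≤ 1) ∧
      ∃ M, 0 < M ∧ ∀ g ∈ Algebra.adjoin ℤ (s : Set (ℕ → K)), Slow g → ∀ r,
        ∃ q : Polynomial K, ∀ᶠ k : ℕ in atTop, g (r + M * k) = q.eval (k : K) := by
  classical
  obtain ⟨p, S, p3, pS, hS, fin⟩ := exists_mod (s.image fun g => g 0)
  set R := Algebra.adjoin ℤ (s : Set (ℕ → K))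
  set A := Algebra.adjoin ℤ ((s.image fun g => g 0 : Finset K) : Set K)
  have : Algebra.FiniteType ℤ R := (Subalgebra.fg_iff_finiteType _).1 ⟨s, rfl⟩
  have m0 : ∀ g ∈ R, g 0 ∈ A := fun g hg => by
    induction hg using Algebra.adjoin_induction with
    | mem x hx => exact Algebra.subset_adjoin (Finset.mem_image_of_mem _ hx)
    | algebraMap r => exact Subalgebra.algebraMap_mem _ r
    | add x y _ _ hx hy => exact add_mem hx hy
    | mul x y _ _ hx hy => exact mul_mem hx hy
  let φ : R →+* R := (shf.comp R.val.toRingHom).codRestrict R fun g => shf_mem hs g.2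
  let e : R →+* A := ((Pi.evalRingHom _ 0).comp R.val.toRingHom).codRestrict A fun g => m0 g g.2
  have hφ : ∀ (n : ℕ) (g : R) (m : ℕ), ((φ ^ n) g : ℕ → K) m = (g : ℕ → K) (m + n) := fun n => by
    induction n with
    | zero => exact fun g m => rfl
    | succ n ih =>
      intro g m
      rw [pow_succ, RingHom.mul_def, RingHom.comp_apply, ih]
      rfl
  have he : ∀ (n : ℕ) (g : R), (e ((φ ^ n) g) : K) = (g : ℕ → K) n := fun n g => by
    have := hφ n g 0
    rwa [zero_add] at this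
  have hS' : ∀ v ∉ S, ∀ g ∈ R, ∀ n, v (g n) ≤ 1 := fun v hv g hg n => by
    have := hS v hv _ (e ((φ ^ n) ⟨g, hg⟩)).2
    rwa [he] at this
  obtain ⟨n0, M, M0, hM⟩ := padic φ e (p : A)
  refine ⟨S, hS', M, M0, fun g hg slow r => ?_⟩
  obtain ⟨r', hr⟩ : ∃ r', n0 + r' = r + M * n0 :=
    ⟨r + M * n0 - n0, by have : n0 ≤ M * n0 := Nat.le_mul_of_pos_left _ M0; omega⟩
  let y : ℕ → K := fun k => g (r + M * (n0 + k))
  have hy : ∀ j n, ∃ w ∈ A, (fwdDiff 1)^[j] y (n + j) = (p : K) ^ j * w := fun j n => by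
    obtain ⟨w, hw⟩ := hM j ((φ ^ r') ⟨g, hg⟩) n
    refine ⟨w, w.2, ?_⟩
    have := congrArg A.val hw
    rw [fwdDiff_iter_eq_sum_shift, map_sum] at this
    rw [fwdDiff_iter_eq_sum_shift]
    refine Eq.trans (Finset.sum_congr rfl fun k _ => ?_) (this.trans (by simp))
    rw [map_zsmul, Subalgebra.coe_val, he, hφ]
    refine congrArg (fun m => _ • g m) ?_
    rw [add_right_comm n0, hr]
    ring
  let L : ℕ := Module.finrank ℚ K + S.card
  let C : ℕ := r + M * (n0 + 4)
  obtain ⟨ε, ε0, hε⟩ : ∃ ε : ℝ, 0 < ε ∧ 2 / 3 * Real.exp (ε * C) ^ L < 1 := by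
    have c : ContinuousAt (fun ε : ℝ => 2 / 3 * Real.exp (ε * C) ^ L) 0 := by fun_prop
    have := c.eventually (gt_mem_nhds (a := 1) (by norm_num))
    exact ((this.filter_mono nhdsWithin_le_nhds).and self_mem_nhdsWithin
      (f := nhdsWithin 0 (Set.Ioi 0))).exists.imp fun ε h => ⟨h.2, h.1⟩
  obtain ⟨j0, hj⟩ := eventually_atTop.1 ((eventually_all.2 fun v : InfinitePlace K =>
    slow v.1 (.inl ⟨v, rfl⟩) ε ε0).and ((eventually_all_finset S).2 fun v _ =>
      slow v.1 (.inr ⟨v, rfl⟩) ε ε0))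
  have key : ∀ j, j0 + 2 ≤ j → ∀ n, n ≤ 2 * j → (fwdDiff 1)^[j] y (n + j) = 0 := by
    intro j hj0 n hn
    obtain ⟨w, wA, hw⟩ := hy j n
    set B := Real.exp (ε * C) ^ j with hB
    have B1 : 1 ≤ B := one_le_pow₀ (Real.one_le_exp (by positivity))
    have idx : ∀ k, n + j ≤ k → k ≤ n + j + j → j0 ≤ r + M * (n0 + k) ∧
        Real.exp (ε * (r + M * (n0 + k) : ℕ)) ≤ B := fun k u v => by
      refine ⟨by nlinarith, ?_⟩
      rw [hB, ← Real.exp_nat_mul, Real.exp_le_exp, mul_left_comm]
      refine mul_le_mul_of_nonneg_left ?_ ε0.le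
      have a : r ≤ j * r := Nat.le_mul_of_pos_left _ (by omega)
      have b : n0 ≤ j * n0 := Nat.le_mul_of_pos_left _ (by omega)
      have c : M * (n0 + k) ≤ M * (j * n0 + 4 * j) := Nat.mul_le_mul_left _ (by omega)
      have : r + M * (n0 + k) ≤ j * C := by simp only [C]; nlinarith
      exact_mod_cast this
    rw [hw]
    by_contra ne
    have w0 : w ≠ 0 := right_ne_zero_of_mul ne
    have p0 : (3 : ℝ) ≤ p := by exact_mod_cast p3
    have i1 : ∀ v : InfinitePlace K, v w ≤ (2 / 3) ^ j * B := fun v => by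
      have := diff_le (f := v) (c := 2) (B := B) (fun x y t a b => (v.1.sub_le_add x y).trans (by
        change v x + v y ≤ _; linarith)) y j (n + j) fun k a b =>
        ((hj _ (idx k a b).1).1 v).trans (idx k a b).2
      rw [hw, map_mul, map_pow, v.map_natCast] at this
      rw [div_pow, div_mul_eq_mul_div, le_div_iff₀ (by positivity), mul_comm]
      exact (mul_le_mul_of_nonneg_right (pow_le_pow_left₀ (by norm_num) p0 j)
        (apply_nonneg _ _)).trans this
    have i2 : ∀ v ∈ S, v w ≤ B := fun v hv => by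
      have := diff_le (f := v) (c := 1) (B := B) (fun x y t a b => by
        rw [one_mul]; exact fin_sub v a b) y j (n + j) fun k a b =>
        ((hj _ (idx k a b).1).2 v hv).trans (idx k a b).2
      rwa [hw, map_mul, map_pow, pS v hv, one_pow, one_mul, one_mul] at this
    have i3 := fp_le S (fun v => v w) B1 (fun v => apply_nonneg _ _) i2 fun v hv => hS v hv w wA
    have i4 : ∏ v : InfinitePlace K, v w ^ v.mult ≤ ((2 / 3) ^ j * B) ^ Module.finrank ℚ K := by
      rw [← InfinitePlace.sum_mult_eq, ← Finset.prod_pow_eq_pow_sum]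
      exact Finset.prod_le_prod (fun _ _ => by positivity) fun v _ =>
        pow_le_pow_left₀ (apply_nonneg _ _) (i1 v) _
    have i5 : ((2 / 3 : ℝ) ^ j) ^ Module.finrank ℚ K ≤ (2 / 3) ^ j :=
      pow_le_of_le_one (by positivity) (pow_le_one₀ (by norm_num) (by norm_num))
        Module.finrank_pos.ne'
    have i6 := mul_le_mul i4 i3 (finprod_nonneg fun _ => apply_nonneg _ _) (by positivity)
    rw [prod_abs_eq_one w0, mul_pow, mul_assoc, ← pow_add] at i6
    have i7 : (2 / 3 * Real.exp (ε * C) ^ L) ^ j < 1 := pow_lt_one₀ (by positivity) hε (by omega)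
    rw [mul_pow, pow_right_comm] at i7
    exact absurd (i6.trans (mul_le_mul_of_nonneg_right i5 (by positivity))) i7.not_ge
  obtain ⟨q, hq⟩ := exists_poly y _ (window y (j0 + 2) (by omega) key)
  refine ⟨q.comp (Polynomial.X - Polynomial.C (n0 : K)), eventually_atTop.2 ⟨n0 + (j0 + 2),
    fun k hk => ?_⟩⟩
  obtain ⟨m, rfl⟩ : ∃ m, k = n0 + m := ⟨k - n0, by omega⟩
  simpa using hq m (by omega)

end Pool.Agent.MP_c8dfda_nt.TG
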