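import Pool.Agent.MP_c8dfda_nt.tg.Gap

/-! Growth lemmas and local estimates along a translation. -/

namespace Pool.Agent.MP_c8dfda_nt.TG

open NumberField Filter Function Height Topology MvPolynomial

/-! ### Real sequences -/

theorem dich (m η : ℕ → ℝ) {θ d : ℝ} (θ0 : 0 ≤ θ) (θ1 : θ < 1) (hd : 2 ≤ d) (m0 : ∀ n, 0 ≤ m n)
    (hη : ∀ δ : ℝ, 0 < δ → ∀ᶠ n : ℕ in atTop, η n ≤ δ * n)
    (h : ∀ᶠ n : ℕ in atTop, d * m (n + 1) ≤ m (n + 2) + η n ∨ m (n + 1) ≤ θ * m n + η n) :
    (∀ ε : ℝ, 0 < ε → ∀ᶠ n : ℕ in atTop, m n ≤ ε * n) ∨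
      ∃ c : ℝ, 0 < c ∧ ∀ᶠ n : ℕ in atTop, c * d ^ n ≤ m n := by
  refine or_iff_not_imp_left.2 fun hc => ?_
  push Not at hc
  obtain ⟨ε, ε0, hε⟩ := hc
  obtain ⟨δ, δ0, e1, e2⟩ : ∃ δ : ℝ, 0 < δ ∧ δ ≤ (1 - θ) * (ε / 2) ∧ 4 * δ ≤ ε / 2 := by
    refine ⟨(1 - θ) * (ε / 8), mul_pos (by linarith) (by linarith), ?_, ?_⟩ <;> nlinarith
  obtain ⟨N, hN⟩ := eventually_atTop.1 (h.and (hη δ δ0))
  obtain ⟨n, nN, a, b⟩ : ∃ n, N ≤ n ∧ θ * m n + δ * n < m (n + 1) ∧ 4 * δ * (n + 1) < m (n + 1) := by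
    by_contra c
    push Not at c
    have up : ∀ k : ℕ, m (N + k) ≤ θ ^ k * m N + ε / 2 * (N + k) := fun k => by
      induction k with
      | zero => simp; positivity
      | succ k ih =>
        have z : (0 : ℝ) ≤ N + k := by positivity
        have p : 0 ≤ θ ^ (k + 1) * m N := mul_nonneg (pow_nonneg θ0 _) (m0 _)
        have c' := c (N + k) (by omega)
        push_cast at c' ⊢
        rw [← add_assoc]
        by_cases l : θ * m (N + k) + δ * (N + k) < m (N + k + 1)
        · nlinarith [c' l]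
        · have := mul_le_mul_of_nonneg_left ih θ0
          rw [pow_succ] at p ⊢
          nlinarith
    obtain ⟨n, hn, l⟩ := (hε.and_eventually ((eventually_ge_atTop N).and
      (tendsto_natCast_atTop_atTop.eventually_ge_atTop (2 * m N / ε)))).exists
    obtain ⟨k, rfl⟩ := Nat.exists_eq_add_of_le l.1
    have u := up k
    have : θ ^ k * m N ≤ m N := mul_le_of_le_one_left (m0 _) (pow_le_one₀ θ0 θ1.le)
    have l2 := (div_le_iff₀ ε0).1 l.2
    push_cast at hn l2
    nlinarith
  set u := m (n + 1) - 4 * δ * (n + 1) with hu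
  have u0 : 0 < u := by linarith
  have key : ∀ k : ℕ, θ * m (n + k) + δ * (n + k) < m (n + k + 1) ∧
      d ^ k * u + 4 * δ * (n + k + 1) ≤ m (n + k + 1) := fun k => by
    induction k with
    | zero => exact ⟨by simpa using a, by simp [hu]⟩
    | succ k ih =>
      obtain ⟨h1, h2⟩ := hN (n + k) (by omega)
      push_cast at h2 ⊢
      have z : (0 : ℝ) ≤ δ * (n + k) := by positivity
      have p : 0 < d ^ k * u := by positivity
      have g := h1.resolve_right (by linarith [ih.1])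
      have g1 := mul_le_mul_of_nonneg_left ih.2 (by linarith : 0 ≤ d)
      have g2 : θ * m (n + k + 1) ≤ m (n + k + 1) := mul_le_of_le_one_left (m0 _) θ1.le
      have g3 : 2 * m (n + k + 1) ≤ d * m (n + k + 1) := mul_le_mul_of_nonneg_right hd (m0 _)
      have g4 : 2 * (4 * δ * (n + k + 1)) ≤ d * (4 * δ * (n + k + 1)) :=
        mul_le_mul_of_nonneg_right hd (by positivity)
      rw [← add_assoc, pow_succ]
      constructor <;> nlinarith [ih.2]
  refine ⟨u / d ^ (n + 1), by positivity, eventually_atTop.2 ⟨n + 1, fun j hj => ?_⟩⟩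
  obtain ⟨k, rfl⟩ : ∃ k, j = n + k + 1 := ⟨j - (n + 1), by omega⟩
  have : u / d ^ (n + 1) * d ^ (n + k + 1) = d ^ k * u := by
    have : d ≠ 0 := by linarith
    field_simp
    ring
  have z : (0 : ℝ) ≤ 4 * δ * (n + k + 1) := by positivity
  linarith [(key k).2]

theorem upper (m : ℕ → ℝ) {d : ℝ} (hd : 2 ≤ d)
    (h : ∀ᶠ n : ℕ in atTop, m (n + 1) ≤ d * m n + n) :
    ∃ C : ℝ, ∀ᶠ n : ℕ in atTop, m n ≤ C * d ^ n := by
  obtain ⟨N, hN⟩ := eventually_atTop.1 h
  have key : ∀ k : ℕ, m (N + k) + (N + k + 1) ≤ (m N + (N + 1)) * d ^ k := fun k => by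
    induction k with
    | zero => simp
    | succ k ih =>
      have a := hN (N + k) (by omega)
      have b := mul_le_mul_of_nonneg_left ih (by linarith : 0 ≤ d)
      have c : (2 : ℝ) * (N + k + 1) ≤ d * (N + k + 1) :=
        mul_le_mul_of_nonneg_right hd (by positivity)
      push_cast at a ⊢
      rw [← Nat.add_assoc, pow_succ]
      nlinarith
  refine ⟨(m N + (N + 1)) / d ^ N, eventually_atTop.2 ⟨N, fun j hj => ?_⟩⟩
  obtain ⟨k, rfl⟩ := Nat.exists_eq_add_of_le hj
  have : (m N + (N + 1)) / d ^ N * d ^ (N + k) = (m N + (N + 1)) * d ^ k := by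
    have : d ≠ 0 := by linarith
    field_simp
    ring
  have z : (0 : ℝ) ≤ N + k + 1 := by positivity
  linarith [key k]

theorem root_lim (a : ℕ → ℝ) {c C d : ℝ} (c0 : 0 < c) (d0 : 0 < d)
    (h1 : ∀ᶠ n : ℕ in atTop, c * d ^ n ≤ a n) (h2 : ∀ᶠ n : ℕ in atTop, a n ≤ C * d ^ n) :
    Tendsto (fun n : ℕ => a n ^ (1 / (n : ℝ))) atTop (𝓝 d) := by
  have t : ∀ x : ℝ, 0 < x → Tendsto (fun n : ℕ => x ^ (1 / (n : ℝ)) * d) atTop (𝓝 d) := fun x hx => by
    have := ((Real.continuousAt_const_rpow hx.ne').tendsto.comp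
      tendsto_one_div_atTop_nhds_zero_nat).mul_const d
    simpa using this
  have e : ∀ x : ℝ, 0 < x → ∀ n : ℕ, 1 ≤ n →
      (x * d ^ n) ^ (1 / (n : ℝ)) = x ^ (1 / (n : ℝ)) * d := fun x hx n hn => by
    rw [Real.mul_rpow hx.le (by positivity), one_div, Real.pow_rpow_inv_natCast d0.le (by omega)]
  have C0 : 0 < C := by
    obtain ⟨n, p, q⟩ := (h1.and h2).exists
    exact c0.trans_le (le_of_mul_le_mul_right (p.trans q) (by positivity))
  refine tendsto_of_tendsto_of_tendsto_of_le_of_le' (t c c0) (t C C0) ?_ ?_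
  · filter_upwards [h1, eventually_ge_atTop 1] with n p hn
    rw [← e c c0 n hn]
    exact Real.rpow_le_rpow (by positivity) p (by positivity)
  · filter_upwards [h1, h2, eventually_ge_atTop 1] with n p q hn
    rw [← e C C0 n hn]
    exact Real.rpow_le_rpow (le_trans (by positivity) p) q (by positivity)

/-- Subexponential sequences. -/
def Sx (c : ℕ → ℝ) : Prop :=
  (∀ n, 0 ≤ c n) ∧ ∀ ε : ℝ, 0 < ε → ∀ᶠ n : ℕ in atTop, c n ≤ Real.exp (ε * n)

theorem Sx.mono {a b : ℕ → ℝ} (h : Sx b) (a0 : ∀ n, 0 ≤ a n) (l : ∀ n, a n ≤ b n) : Sx a :=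
  ⟨a0, fun ε e => (h.2 ε e).mono fun n p => (l n).trans p⟩

theorem sx_const {a : ℝ} (h : 0 ≤ a) : Sx fun _ => a :=
  ⟨fun _ => h, fun _ e => (Real.tendsto_exp_atTop.comp
    (tendsto_natCast_atTop_atTop.const_mul_atTop e)).eventually_ge_atTop a⟩

theorem Sx.mul {a b : ℕ → ℝ} (ha : Sx a) (hb : Sx b) : Sx fun n => a n * b n :=
  ⟨fun n => mul_nonneg (ha.1 n) (hb.1 n), fun ε e => by
    filter_upwards [ha.2 (ε / 2) (by positivity), hb.2 (ε / 2) (by positivity)] with n p q
    refine (mul_le_mul p q (hb.1 n) (by positivity)).trans_eq ?_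
    rw [← Real.exp_add]
    ring_nf⟩

theorem Sx.add {a b : ℕ → ℝ} (ha : Sx a) (hb : Sx b) : Sx fun n => a n + b n :=
  ⟨fun n => add_nonneg (ha.1 n) (hb.1 n), fun ε e => by
    filter_upwards [ha.2 (ε / 2) (by positivity), hb.2 (ε / 2) (by positivity),
      (sx_const zero_le_two).2 (ε / 2) (by positivity)] with n p q r
    have : Real.exp (ε * n) = Real.exp (ε / 2 * n) * Real.exp (ε / 2 * n) := by
      rw [← Real.exp_add]
      ring_nf
    nlinarith [Real.exp_pos (ε / 2 * n)]⟩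

theorem Sx.pow {a : ℕ → ℝ} (ha : Sx a) (e : ℕ) : Sx fun n => a n ^ e := by
  induction e with
  | zero => simpa using sx_const zero_le_one
  | succ e ih => simpa only [pow_succ] using ih.mul ha

theorem Sx.sum {ι : Type*} (s : Finset ι) {a : ι → ℕ → ℝ} (ha : ∀ i, Sx (a i)) :
    Sx fun n => ∑ i ∈ s, a i n := by
  classical
  induction s using Finset.induction_on with
  | empty => simpa using sx_const le_rfl
  | insert i s hi ih => simpa only [Finset.sum_insert hi] using (ha i).add ih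

theorem sx_nat : Sx fun n => (n : ℝ) :=
  ⟨fun n => n.cast_nonneg, fun ε e => by
    filter_upwards [tendsto_natCast_atTop_atTop.eventually_ge_atTop (2 / ε ^ 2)] with n hn
    have h1 := Real.quadratic_le_exp_of_nonneg (x := ε * n) (by positivity)
    have h2 := (div_le_iff₀ (by positivity)).1 hn
    have h3 : (0 : ℝ) ≤ n := n.cast_nonneg
    have h4 : 0 ≤ ε * n := by positivity
    nlinarith [mul_le_mul_of_nonneg_left h2 h3]⟩

theorem Sx.log {c : ℕ → ℝ} (h : Sx c) (δ : ℝ) (e : 0 < δ) :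
    ∀ᶠ n : ℕ in atTop, Real.log (c n) ≤ δ * n :=
  (h.2 δ e).mono fun n p => by
    rcases (h.1 n).eq_or_lt with z | z
    · rw [← z, Real.log_zero]; positivity
    · exact (Real.log_le_iff_le_exp z).2 p

/-! ### Heights along a translation -/

variable {K : Type*} [Field K] [NumberField K]

theorem height_nat (n : ℕ) : mulHeight₁ (n : K) ≤ (n + 1 : ℝ) ^ Module.finrank ℚ K := by
  have : ∏ᶠ v : FinitePlace K, max (v (n : K)) 1 = 1 :=
    finprod_eq_one_of_forall_eq_one fun v => max_eq_right (fin_int v (isIntegral_natCast n))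
  rw [NumberField.mulHeight₁_eq, this, mul_one, ← InfinitePlace.sum_mult_eq,
    ← Finset.prod_pow_eq_pow_sum]
  refine Finset.prod_le_prod (fun _ _ => by positivity) fun v _ =>
    pow_le_pow_left₀ (by positivity) ?_ _
  rw [v.map_natCast]
  exact max_le (by linarith) (by linarith [(n.cast_nonneg : (0 : ℝ) ≤ n)])

theorem sx_add {g g' : ℕ → K} (h : Sx fun n => mulHeight₁ (g n)) (h' : Sx fun n => mulHeight₁ (g' n)) :
    Sx fun n => mulHeight₁ (g n + g' n) :=
  (((sx_const (a := 2 ^ totalWeight K) (by positivity)).mul h).mul h').mono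
    (fun _ => mulHeight₁_nonneg _) fun _ => mulHeight₁_add_le _ _

theorem sx_mul {g g' : ℕ → K} (h : Sx fun n => mulHeight₁ (g n)) (h' : Sx fun n => mulHeight₁ (g' n)) :
    Sx fun n => mulHeight₁ (g n * g' n) :=
  (h.mul h').mono (fun _ => mulHeight₁_nonneg _) fun _ => mulHeight₁_mul_le _ _

theorem sx_poly (a : Polynomial K) : Sx fun n : ℕ => mulHeight₁ (a.eval (n : K)) := by
  induction a using Polynomial.induction_on with
  | C a => simpa using sx_const (mulHeight₁_nonneg a)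
  | add p q hp hq => simpa only [Polynomial.eval_add] using sx_add hp hq
  | monomial k a h =>
    have : Sx fun n : ℕ => mulHeight₁ (n : K) :=
      ((sx_nat.add (sx_const zero_le_one)).pow _).mono (fun _ => mulHeight₁_nonneg _) height_nat
    simpa only [pow_succ, ← mul_assoc, Polynomial.eval_mul, Polynomial.eval_X] using sx_mul h this

omit [NumberField K] in
theorem ev_le {A τ : Type*} [CommRing A] (v : AbsoluteValue K ℝ) (φ : A →+* K)
    (q : MvPolynomial τ A) (y : τ → K) {M : ℝ} (M1 : 1 ≤ M) (hy : ∀ i, v (y i) ≤ M) {d : ℕ}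
    (hd : ∀ m ∈ q.support, m.degree ≤ d) :
    v (eval₂ φ y q) ≤ (∑ m ∈ q.support, v (φ (q.coeff m))) * M ^ d := by
  rw [eval₂_eq, Finset.sum_mul]
  refine (v.sum_le _ _).trans (Finset.sum_le_sum fun m hm => ?_)
  rw [map_mul, map_prod]
  refine mul_le_mul_of_nonneg_left (le_trans ?_ (pow_le_pow_right₀ M1 (hd m hm))) (v.nonneg _)
  rw [Finsupp.degree_apply, ← Finset.prod_pow_eq_pow_sum]
  exact Finset.prod_le_prod (fun _ _ => v.nonneg _) fun i _ => by
    rw [map_pow]; exact pow_le_pow_left₀ (v.nonneg _) (hy i) _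

omit [NumberField K] in
theorem ev_top {A τ : Type*} [CommRing A] (φ : A →+* K) (q : MvPolynomial τ A) (u : τ → K) (t : K)
    (e : ℕ) : eval₂ φ (fun i => t * u i) (homogeneousComponent e q) =
      t ^ e * eval₂ φ u (homogeneousComponent e q) := by
  classical
  rw [eval₂_eq, eval₂_eq, Finset.mul_sum]
  refine Finset.sum_congr rfl fun m hm => ?_
  rw [support_homogeneousComponent] at hm
  simp only [mul_pow]
  rw [Finset.prod_mul_distrib, Finset.prod_pow_eq_pow_sum, ← Finsupp.degree_apply,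
    (Finset.mem_filter.1 hm).2]
  ring

/-- The value at time `n` of a polynomial with coefficients in `K[X]`. -/
noncomputable abbrev ev {ι : Type*} (s : Polynomial K) (n : ℕ) (y : ι → K)
    (q : MvPolynomial ι (Polynomial K)) : K :=
  eval₂ (Polynomial.evalRingHom (s.eval (n : K))) y q

theorem loc_le {ι : Type*} (s : Polynomial K) (q : MvPolynomial ι (Polynomial K)) :
    ∃ c, Sx c ∧ (∀ n, 1 ≤ c n) ∧ ∀ (n : ℕ) (v : AbsoluteValue K ℝ), Pl v → ∀ (y : ι → K) (M : ℝ),
      1 ≤ M → (∀ i, v (y i) ≤ M) → ∀ d, (∀ m ∈ q.support, m.degree ≤ d) →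
      v (ev s n y q) ≤ c n * M ^ d := by
  refine ⟨fun n => 1 + ∑ m ∈ q.support, mulHeight₁ (((q.coeff m).comp s).eval (n : K)),
    (sx_const zero_le_one).add (Sx.sum _ fun m => sx_poly _), fun n => le_add_of_nonneg_right
      (Finset.sum_nonneg fun _ _ => mulHeight₁_nonneg _), fun n v hv y M M1 hy d hd => ?_⟩
  refine (ev_le v _ q y M1 hy hd).trans (mul_le_mul_of_nonneg_right ?_ (by positivity))
  refine le_trans (Finset.sum_le_sum fun m _ => ?_) (le_add_of_nonneg_left zero_le_one)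
  rw [Polynomial.eval_comp]
  exact hv.le_height _

attribute [local instance] algebraMvPolynomial in
omit [NumberField K] in
theorem nullst {ι J : Type*} [Finite ι] [Fintype J] (T : J → MvPolynomial ι (Polynomial K))
    (h : ∀ y : ι → AlgebraicClosure (RatFunc K), (∀ j, aeval y (T j) = 0) → y = 0) (i : ι) :
    ∃ (R : Polynomial K) (r : ℕ) (A : J → MvPolynomial ι (Polynomial K)), R ≠ 0 ∧
      ∑ j, A j * T j = C R * X i ^ r := by
  let I := (Ideal.span (Set.range T)).map
    (algebraMap (MvPolynomial ι (Polynomial K)) (MvPolynomial ι (RatFunc K)))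
  have : X i ∈ I.radical := by
    rw [← vanishingIdeal_zeroLocus_eq_radical (K := AlgebraicClosure (RatFunc K))]
    intro y hy
    rw [h y fun j => ?_, aeval_X, Pi.zero_apply]
    have := hy _ (Ideal.mem_map_of_mem _ (Ideal.subset_span ⟨j, rfl⟩))
    rwa [algebraMap_def, aeval_map_algebraMap] at this
  obtain ⟨r, hr⟩ := this
  have e : (X i : MvPolynomial ι (RatFunc K)) ^ r =
      algebraMap (MvPolynomial ι (Polynomial K)) _ (X i ^ r) := by
    rw [algebraMap_def, map_pow, map_X]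
  rw [e, IsLocalization.algebraMap_mem_map_algebraMap_iff
    ((nonZeroDivisors (Polynomial K)).map (C (σ := ι)))] at hr
  obtain ⟨_, ⟨R, hR, rfl⟩, hr⟩ := hr
  obtain ⟨A, hA⟩ := Ideal.mem_span_range_iff_exists_fun.1 hr
  exact ⟨R, r, A, nonZeroDivisors.ne_zero hR, hA⟩

/-- Joint regularity at a place. -/
theorem loc_ge {ι J : Type*} [Fintype ι] [Fintype J] (s : Polynomial K) (hs : s.natDegree ≠ 0)
    (Q : J → MvPolynomial ι (Polynomial K)) (e : J → ℕ) (e1 : ∀ j, 1 ≤ e j)
    (hQ : ∀ j, (Q j).totalDegree ≤ e j)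
    (h : ∀ y : ι → AlgebraicClosure (RatFunc K),
      (∀ j, aeval y (homogeneousComponent (e j) (Q j)) = 0) → y = 0) :
    ∃ c, Sx c ∧ (∀ n, 1 ≤ c n) ∧ ∀ᶠ n : ℕ in atTop, ∀ v : AbsoluteValue K ℝ, Pl v →
      ∀ (y : ι → K) (i : ι), 1 ≤ v (y i) → (∀ l, v (y l) ≤ v (y i)) →
      ∃ j, v (y i) ^ e j ≤ c n * max 1 (v (ev s n y (Q j))) := by
  classical
  choose R r A R0 hA using nullst _ h
  choose a a1 a2 a3 using fun p : ι × J => loc_le s (A p.1 p.2)
  choose b b1 b2 b3 using fun j => loc_le s (Q j - homogeneousComponent (e j) (Q j))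
  let κ : ℕ → ℝ := fun n => (∑ i, mulHeight₁ (((R i).comp s).eval (n : K))) * ∑ p, a p n
  let B : ℕ → ℝ := fun n => 1 + ∑ j, b j n
  have hκ : Sx κ := (Sx.sum _ fun i => sx_poly _).mul (Sx.sum _ a1)
  have hB : Sx B := (sx_const zero_le_one).add (Sx.sum _ b1)
  have B1 : ∀ n, 1 ≤ B n := fun n =>
    le_add_of_nonneg_right (Finset.sum_nonneg fun j _ => (b1 j).1 n)
  have c1 : ∀ n, 1 ≤ 1 + 2 * κ n * B n := fun n =>
    le_add_of_nonneg_right (mul_nonneg (mul_nonneg zero_le_two (hκ.1 n)) (hB.1 n))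
  refine ⟨fun n => (1 + 2 * κ n * B n) ^ (1 + ∑ j, e j), ((sx_const zero_le_one).add
    (((sx_const zero_le_two).mul hκ).mul hB)).pow _, fun n => one_le_pow₀ (c1 n), ?_⟩
  have nz : ∀ i, ∀ᶠ n : ℕ in atTop, ((R i).comp s).eval (n : K) ≠ 0 := fun i => by
    have p0 : (R i).comp s ≠ 0 := fun z => by
      rcases Polynomial.comp_eq_zero_iff.1 z with z | z
      · exact R0 i z
      · exact hs (by rw [z.2, Polynomial.natDegree_C])
    rw [← Nat.cofinite_eq_atTop]
    exact ((Polynomial.finite_setOfPred_isRoot p0).preimage Nat.cast_injective.injOn).subset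
      fun n hn => by simpa using hn
  filter_upwards [eventually_all.2 nz] with n hn v hv y i M1 hy
  set t := y i
  have t0 : t ≠ 0 := fun z => by simp [z] at M1; linarith
  let u : ι → K := fun l => y l / t
  have hu : ∀ l, v (u l) ≤ 1 := fun l => by
    rw [map_div₀]; exact div_le_one_of_le₀ (hy l) (v.nonneg _)
  have yu : y = fun l => t * u l := funext fun l => by simp only [u]; field_simp
  have e0 := congrArg (ev s n u) (hA i)
  simp only [ev, eval₂_sum, eval₂_mul, eval₂_C, eval₂_pow, eval₂_X] at e0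
  rw [show u i = 1 from div_self t0, one_pow, mul_one, Polynomial.coe_evalRingHom,
    ← Polynomial.eval_comp] at e0
  have ne : Nonempty J := by
    by_contra z
    rw [not_nonempty_iff] at z
    exact hn i (by rw [← e0, Finset.univ_eq_empty, Finset.sum_empty])
  obtain ⟨j, -, hj⟩ := Finset.exists_max_image Finset.univ
    (fun j => v (ev s n u (homogeneousComponent (e j) (Q j)))) Finset.univ_nonempty
  set τ := v (ev s n u (homogeneousComponent (e j) (Q j)))
  have τ0 : 0 ≤ τ := v.nonneg _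
  have k1 : v (((R i).comp s).eval (n : K)) ≤ (∑ p, a p n) * τ := by
    rw [← e0]
    refine (v.sum_le _ _).trans (le_trans (Finset.sum_le_sum (g := fun l => a (i, l) n * τ)
      fun l _ => ?_) ?_)
    · rw [map_mul]
      refine mul_le_mul ?_ (hj l (Finset.mem_univ _)) (v.nonneg _) ((a1 _).1 n)
      simpa using a3 (i, l) n v hv u 1 le_rfl hu _ fun m hm => le_totalDegree hm
    · rw [← Finset.sum_mul, Fintype.sum_prod_type]
      exact mul_le_mul_of_nonneg_right (Finset.single_le_sum (f := fun i => ∑ l, a (i, l) n)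
        (fun _ _ => Finset.sum_nonneg fun _ _ => (a1 _).1 n) (Finset.mem_univ i)) τ0
  have k2 : 1 ≤ κ n * τ := by
    have h1 := hv.le_height (((R i).comp s).eval (n : K))⁻¹
    rw [mulHeight₁_inv] at h1
    have h2 := h1.trans (Finset.single_le_sum
      (f := fun i => mulHeight₁ (((R i).comp s).eval (n : K)))
      (fun _ _ => mulHeight₁_nonneg _) (Finset.mem_univ i))
    have h3 := mul_le_mul h2 k1 (v.nonneg _) ((v.nonneg _).trans h2)
    rwa [← map_mul, inv_mul_cancel₀ (hn i), map_one, ← mul_assoc] at h3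
  obtain ⟨f, hf⟩ : ∃ f, e j = f + 1 := ⟨e j - 1, by have := e1 j; omega⟩
  have k3 : v t ^ e j * τ ≤ v (ev s n y (Q j)) + B n * v t ^ f := by
    have h1 := b3 j n v hv y _ M1 hy f fun m hm => by
      have := mem_support_iff.1 hm
      rw [coeff_sub, coeff_homogeneousComponent] at this
      have p : m.degree ≠ e j := fun z => this (by rw [if_pos z, sub_self])
      rw [if_neg p, sub_zero] at this
      have : m.degree ≤ e j := (le_totalDegree (mem_support_iff.2 this)).trans (hQ j)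
      omega
    have h2 : v (ev s n y (homogeneousComponent (e j) (Q j))) = v t ^ e j * τ := by
      rw [yu, ev, ev_top, map_mul, map_pow]
    have h3 := v.sub_le_add (ev s n y (Q j)) (ev s n y (Q j - homogeneousComponent (e j) (Q j)))
    rw [show ev s n y (Q j) - ev s n y (Q j - homogeneousComponent (e j) (Q j)) =
      ev s n y (homogeneousComponent (e j) (Q j)) by simp only [ev, eval₂_sub]; ring, h2] at h3
    have h4 : b j n ≤ B n := (Finset.single_le_sum (f := fun j => b j n)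
      (fun l _ => (b1 l).1 n) (Finset.mem_univ j)).trans (le_add_of_nonneg_left zero_le_one)
    exact h3.trans (add_le_add le_rfl (h1.trans (mul_le_mul_of_nonneg_right h4 (by positivity))))
  refine ⟨j, ?_⟩
  have W1 := le_max_left 1 (v (ev s n y (Q j)))
  have W2 := le_max_right 1 (v (ev s n y (Q j)))
  generalize max 1 (v (ev s n y (Q j))) = W at W1 W2 ⊢
  have κ0 := hκ.1 n
  have Bn := B1 n
  by_cases c : v t ≤ 2 * κ n * B n
  · refine le_trans ?_ (le_mul_of_one_le_right (pow_nonneg (zero_le_one.trans (c1 n)) _) W1)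
    refine (pow_le_pow_left₀ (v.nonneg _) (c.trans (le_add_of_nonneg_left zero_le_one)) _).trans
      (pow_le_pow_right₀ (c1 n) ?_)
    exact (Finset.single_le_sum (f := e) (fun _ _ => Nat.zero_le _) (Finset.mem_univ j)).trans
      (Nat.le_add_left _ _)
  · have p1 : 1 + 2 * κ n * B n ≤ (1 + 2 * κ n * B n) ^ (1 + ∑ j, e j) :=
      le_self_pow₀ (c1 n) (by omega)
    refine le_trans ?_ (mul_le_mul_of_nonneg_right p1 (by linarith))
    rw [hf, pow_succ] at k3 ⊢
    have z : 0 < v t ^ f := by positivity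
    generalize v t ^ f = Z at k3 z ⊢
    have q1 := mul_le_mul_of_nonneg_left k3 κ0
    have q2 : Z * v t * 1 ≤ Z * v t * (κ n * τ) := mul_le_mul_of_nonneg_left k2 (by positivity)
    have q3 : Z * (2 * κ n * B n) ≤ Z * v t := mul_le_mul_of_nonneg_left (not_le.1 c).le z.le
    have q4 := mul_le_mul_of_nonneg_left W2 κ0
    have q5 : κ n * W * 1 ≤ κ n * W * B n := mul_le_mul_of_nonneg_left Bn (mul_nonneg κ0 (by linarith))
    nlinarith

end Pool.Agent.MP_c8dfda_nt.TG
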