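import Pool.Agent.MP_c8dfda_nt.tg.Orb

/-! The linear height gap for polynomial observables. -/

namespace Pool.Agent.MP_c8dfda_nt.TG

open NumberField Filter Function Height Topology MvPolynomial

variable {K : Type*} [Field K] [NumberField K] {σ : Type*}

theorem obs_gap [Fintype σ] (f : σ → MvPolynomial σ K) (P : σ → K) (g : MvPolynomial σ K)
    (h : ∀ ε : ℝ, 0 < ε → ∀ᶠ n : ℕ in atTop, logHeight₁ (eval (orb f P n) g) ≤ ε * n) :
    ∃ M, 0 < M ∧ ∀ r, ∃ q : Polynomial K,
      ∀ᶠ k : ℕ in atTop, eval (orb f P (r + M * k)) g = q.eval (k : K) := by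
  let F : Option σ → MvPolynomial (Option σ) K := fun j => rename some (j.elim (bind₁ f g) f)
  have e : ∀ n, orb F (fun j => j.elim (eval P g) P) n =
      fun j => j.elim (eval (orb f P n) g) (orb f P n) := fun n => by
    induction n with
    | zero => rfl
    | succ n ih =>
      funext j
      rw [orb_succ, ih, eval_rename, funext (orb_succ f P n), ← eval_bind]
      cases j <;> rfl
  obtain ⟨-, -, M, M0, hM⟩ := orb_gap F fun j => j.elim (eval P g) P
  simp only [e] at hM
  exact ⟨M, M0, hM none fun v hv ε z => (h ε z).mono fun n p => (hv.le_height _).trans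
    ((Real.log_le_iff_le_exp (mulHeight₁_pos _)).1 p)⟩

end Pool.Agent.MP_c8dfda_nt.TG
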