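import Pool.Agent.MP_c8dfda_nt.tg.Loc

/-! Orbits of polynomial maps: the gap theorem, local sizes and heights. -/

namespace Pool.Agent.MP_c8dfda_nt.TG

open NumberField Filter Function Height Topology MvPolynomial

variable {K : Type*} [Field K] [NumberField K] {σ : Type*}

/-- The orbit of a point. -/
noncomputable abbrev orb (f : σ → MvPolynomial σ K) (P : σ → K) (n : ℕ) : σ → K :=
  (fun a i => eval a (f i))^[n] P

omit [NumberField K] in
theorem orb_succ (f : σ → MvPolynomial σ K) (P : σ → K) (n : ℕ) (i : σ) :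
    orb f P (n + 1) i = eval (orb f P n) (f i) := by
  rw [orb, iterate_succ_apply']

omit [NumberField K] in
theorem eval_bind (z : σ → K) (G : σ → MvPolynomial σ K) (g : MvPolynomial σ K) :
    eval z (bind₁ G g) = eval (fun j => eval z (G j)) g :=
  eval₂Hom_bind₁ _ _ _ _

omit [NumberField K] in
theorem X_sub_ne (a : σ) (c : K) : (X a - C c : MvPolynomial σ K) ≠ 0 := fun e => by
  simpa using congrArg (MvPolynomial.eval fun _ => c + 1) e

theorem orb_gap [Fintype σ] (f : σ → MvPolynomial σ K) (P : σ → K) :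
    ∃ S : Finset (FinitePlace K), (∀ v ∉ S, ∀ n i, v (orb f P n i) ≤ 1) ∧
      ∃ M, 0 < M ∧ ∀ i, Slow (fun n => orb f P n i) → ∀ r,
        ∃ q : Polynomial K, ∀ᶠ k : ℕ in atTop, orb f P (r + M * k) i = q.eval (k : K) := by
  classical
  let s : Finset (ℕ → K) := (Finset.univ.image fun i n => orb f P n i) ∪
    Finset.univ.biUnion fun i => (f i).support.image fun m _ => (f i).coeff m
  have h1 : ∀ i, (fun n => orb f P n i) ∈ Algebra.adjoin ℤ (s : Set (ℕ → K)) := fun i =>
    Algebra.subset_adjoin (Finset.mem_union_left _ (Finset.mem_image_of_mem _ (Finset.mem_univ i)))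
  have h2 : ∀ i, ∀ m ∈ (f i).support,
      (fun _ => (f i).coeff m) ∈ Algebra.adjoin ℤ (s : Set (ℕ → K)) := fun i m hm =>
    Algebra.subset_adjoin (Finset.mem_union_right _ (Finset.mem_biUnion.2
      ⟨i, Finset.mem_univ i, Finset.mem_image_of_mem _ hm⟩))
  obtain ⟨S, hS, M, M0, hM⟩ := gap s fun g hg => by
    rcases Finset.mem_union.1 hg with h | h
    · obtain ⟨i, -, rfl⟩ := Finset.mem_image.1 h
      have : (fun n => orb f P (n + 1) i) = ∑ m ∈ (f i).support,
          (fun _ => (f i).coeff m) * ∏ j ∈ m.support, (fun n => orb f P n j) ^ m j := by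
        funext n
        rw [orb_succ, eval_eq]
        simp only [Finset.sum_apply, Pi.mul_apply, Finset.prod_apply, Pi.pow_apply]
      rw [this]
      exact sum_mem fun m hm => mul_mem (h2 i m hm) (prod_mem fun j _ => pow_mem (h1 j) _)
    · obtain ⟨i, -, h⟩ := Finset.mem_biUnion.1 h
      obtain ⟨m, hm, rfl⟩ := Finset.mem_image.1 h
      exact h2 i m hm
  exact ⟨S, fun v hv n i => hS v hv _ (h1 i) n, M, M0, fun i => hM _ (h1 i)⟩

theorem not_slow [Fintype σ] [Nontrivial σ] (f : σ → MvPolynomial σ K) (P : σ → K)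
    (hP : ∀ G : MvPolynomial σ K, (∀ n, eval (orb f P n) G = 0) → G = 0) :
    ¬ ∀ i, Slow fun n => orb f P n i := fun h => by
  obtain ⟨-, -, M, M0, hM⟩ := orb_gap f P
  choose q hq using fun r i => hM i (h i) r
  have dep : ∀ r, ∃ g : MvPolynomial σ K, aeval (q r) g = 0 ∧ g ≠ 0 := fun r => by
    by_contra c
    push Not at c
    have := (algebraicIndependent_iff.2 c).lift_cardinalMk_le_trdeg
    rw [Polynomial.trdeg_of_isDomain, Cardinal.lift_one, Cardinal.lift_le_one_iff,
      Cardinal.le_one_iff_subsingleton] at this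
    exact not_subsingleton σ this
  choose g g1 g0 using dep
  obtain ⟨N, hN⟩ := eventually_atTop.1 ((eventually_all_finset (Finset.range M)).2 fun r _ =>
    eventually_all.2 (hq r))
  obtain ⟨a⟩ : Nonempty σ := inferInstance
  refine mul_ne_zero (Finset.prod_ne_zero_iff.2 fun r (_ : r ∈ Finset.range M) => g0 r)
    (Finset.prod_ne_zero_iff.2 fun n (_ : n ∈ Finset.range (M * N)) =>
      X_sub_ne a (orb f P n a)) (hP _ fun n => ?_)
  rw [map_mul, map_prod, map_prod]
  by_cases c : n < M * N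
  · exact mul_eq_zero_of_right _ (Finset.prod_eq_zero (Finset.mem_range.2 c) (by simp))
  · have r0 := Finset.mem_range.2 (Nat.mod_lt n M0)
    refine mul_eq_zero_of_left (Finset.prod_eq_zero r0 ?_) _
    have e := hN (n / M) ((Nat.le_div_iff_mul_le M0).2 (by rw [mul_comm]; omega)) _ r0
    rw [Nat.mod_add_div] at e
    have := congrArg (Polynomial.aeval ((n / M : ℕ) : K)) (g1 (n % M))
    rw [map_zero, ← AlgHom.comp_apply, comp_aeval] at this
    rw [funext e]
    exact this

/-- The local size of a point. -/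
noncomputable def W (v : AbsoluteValue K ℝ) (z : σ → K) : ℝ := ⨆ j : Option σ, v (j.elim 1 z)

section
variable [Finite σ] (v : AbsoluteValue K ℝ) (z : σ → K)
omit [NumberField K]

theorem one_le_W : 1 ≤ W v z :=
  Finite.le_ciSup_of_le (f := fun j : Option σ => v (j.elim 1 z)) none (map_one v).ge

theorem le_W (i : σ) : v (z i) ≤ W v z :=
  Finite.le_ciSup_of_le (f := fun j : Option σ => v (j.elim 1 z)) (some i) le_rfl

theorem W_eq : W v z = 1 ∨ ∃ i, W v z = v (z i) := by
  obtain ⟨j, hj⟩ := exists_eq_ciSup_of_finite (f := fun j : Option σ => v (j.elim 1 z))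
  cases j with
  | none => exact .inl (hj.symm.trans (map_one v))
  | some i => exact .inr ⟨i, hj.symm⟩

theorem W_le {B : ℝ} (h1 : 1 ≤ B) (h : ∀ i, v (z i) ≤ B) : W v z ≤ B := by
  rcases W_eq v z with e | ⟨i, e⟩ <;> rw [e]
  exacts [h1, h i]

end

theorem W_le_height [Finite σ] {v : AbsoluteValue K ℝ} (hv : Pl v) (z : σ → K) :
    W v z ≤ mulHeight fun j : Option σ => j.elim 1 z := by
  rcases W_eq v z with e | ⟨i, e⟩ <;> rw [e]
  · exact one_le_mulHeight _
  · refine (hv.le_height _).trans ?_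
    have := mulHeight_comp_le ![some i, none] fun j : Option σ => j.elim 1 z
    rwa [show ((fun j : Option σ => j.elim 1 z) ∘ ![some i, none]) = ![z i, 1] from
      List.ofFn_inj.mp rfl, ← mulHeight₁_eq_mulHeight] at this

theorem height_le [Finite σ] (S : Finset (FinitePlace K)) (z : σ → K) {B : ℝ} (hB : 1 ≤ B)
    (h1 : ∀ v : InfinitePlace K, W v.1 z ≤ B) (h2 : ∀ v ∈ S, W v.1 z ≤ B)
    (h3 : ∀ v ∉ S, ∀ i, v (z i) ≤ 1) :
    (mulHeight fun j : Option σ => j.elim 1 z) ≤ B ^ (Module.finrank ℚ K + S.card) := by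
  rw [NumberField.mulHeight_eq fun e => one_ne_zero (congrFun e none), pow_add]
  refine mul_le_mul ?_ (fp_le S (fun v => W v.1 z) hB (fun v => zero_le_one.trans (one_le_W _ _)) h2
    fun v hv => W_le _ _ le_rfl (h3 v hv))
    (finprod_nonneg fun v => zero_le_one.trans (one_le_W v.1 z)) (by positivity)
  rw [← InfinitePlace.sum_mult_eq, ← Finset.prod_pow_eq_pow_sum]
  exact Finset.prod_le_prod (fun v _ => pow_nonneg (zero_le_one.trans (one_le_W v.1 z)) _)
    fun v _ => pow_le_pow_left₀ (zero_le_one.trans (one_le_W v.1 z)) (h1 v) _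

theorem slow_of [Finite σ] (z : ℕ → σ → K) (h : ∀ v, Pl v → ∀ ε : ℝ, 0 < ε →
    ∀ᶠ n : ℕ in atTop, Real.log (W v (z n)) ≤ ε * n) (i : σ) : Slow fun n => z n i :=
  fun v hv ε e => (h v hv ε e).mono fun n p => (le_W v (z n) i).trans
    ((Real.log_le_iff_le_exp (zero_lt_one.trans_le (one_le_W _ _))).1 p)

end Pool.Agent.MP_c8dfda_nt.TG
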