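import Mathlib

/-! Divisibility of the finite differences along an orbit. -/

namespace Pool.Agent.MP_c8dfda_nt.TG

open Function

/-- A deterministic sequence in a finite set is periodic from its period on. -/
theorem period {X : Type*} [Finite X] (u : ℕ → X) (h : ∀ a b, u a = u b → u (a + 1) = u (b + 1)) :
    ∃ M, 0 < M ∧ u (M + M) = u M := by
  have step : ∀ a b, u a = u b → ∀ c, u (a + c) = u (b + c) := fun a b e c => by
    induction c with
    | zero => exact e
    | succ c ih => exact h _ _ ih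
  obtain ⟨a, t, ht, e⟩ : ∃ a t, 0 < t ∧ u (a + t) = u a := by
    obtain ⟨a, b, ne, e⟩ := Finite.exists_ne_map_eq_of_infinite u
    rcases lt_or_gt_of_ne ne with l | l
    · exact ⟨a, b - a, by omega, by rw [Nat.add_sub_cancel' l.le, e]⟩
    · exact ⟨b, a - b, by omega, by rw [Nat.add_sub_cancel' l.le, e]⟩
  have per : ∀ k c, u (a + c + k * t) = u (a + c) := fun k c => by
    induction k with
    | zero => simp
    | succ k ih =>
      have := step _ _ e (c + k * t)
      rw [← ih, add_assoc a c (k * t), ← this]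
      congr 1
      ring
  refine ⟨(a + 1) * t, by positivity, ?_⟩
  have l : a ≤ (a + 1) * t := by nlinarith
  have := per (a + 1) ((a + 1) * t - a)
  rwa [Nat.add_sub_cancel' l] at this

theorem finite_hom (R B : Type*) [CommRing R] [CommRing B] [Algebra ℤ R]
    [Algebra.FiniteType ℤ R] [Finite B] :
    Finite (R →+* B) := by
  obtain ⟨s, hs⟩ := Algebra.FiniteType.out (R := ℤ) (A := R)
  refine Finite.of_injective (fun (f : R →+* B) (x : s) => f x) fun f g e => ?_
  refine RingHom.ext fun x => ?_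
  have hx : x ∈ Algebra.adjoin ℤ (s : Set R) := hs ▸ Algebra.mem_top
  induction hx using Algebra.adjoin_induction with
  | mem x hx => exact congrFun e ⟨x, hx⟩
  | algebraMap r => rw [eq_intCast, map_intCast, map_intCast]
  | add x y _ _ hx hy => rw [map_add, map_add, hx, hy]
  | mul x y _ _ hx hy => rw [map_mul, map_mul, hx, hy]

variable {R A : Type*} [CommRing R] [CommRing A] [Algebra ℤ R]

theorem hom_period {B : Type*} [CommRing B] [Algebra.FiniteType ℤ R] [Finite B] (φ : R →+* R)
    (π : R →+* B) : ∃ M, 0 < M ∧ ∀ g, π ((φ ^ M) ((φ ^ M) g)) = π ((φ ^ M) g) := by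
  have := finite_hom R B
  obtain ⟨M, h, e⟩ := period (fun n => π.comp (φ ^ n)) fun a b e => by
    rw [pow_succ, pow_succ, RingHom.mul_def, RingHom.mul_def, ← RingHom.comp_assoc, e,
      RingHom.comp_assoc]
  refine ⟨M, h, fun g => ?_⟩
  have := DFunLike.congr_fun e g
  rwa [pow_add] at this

omit [Algebra ℤ R] in
theorem raise {I : Ideal R} {χ : R →+* R} (h0 : ∀ g, χ g - g ∈ I)
    (h1 : ∀ g, χ (χ g) - χ g ∈ I ^ 2) (k : ℕ) :
    ∀ g ∈ I ^ k, χ g ∈ I ^ k ∧ χ (χ g) - χ g ∈ I ^ (k + 1) := by
  have hI : ∀ g ∈ I, χ g ∈ I := fun g hg => by simpa using I.add_mem (h0 g) hg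
  induction k with
  | zero => exact fun g _ => ⟨by simp, by simpa using h0 _⟩
  | succ k ih =>
    intro g hg
    rw [pow_succ] at hg
    refine Submodule.mul_induction_on hg (fun a ha b hb => ⟨?_, ?_⟩) fun a b ha hb => ⟨?_, ?_⟩
    · rw [map_mul, pow_succ]
      exact Ideal.mul_mem_mul (ih a ha).1 (hI b hb)
    · have e : χ (χ (a * b)) - χ (a * b) =
          (χ (χ a) - χ a) * χ (χ b) + χ a * (χ (χ b) - χ b) := by
        simp only [map_mul]; ring
      rw [e]
      refine Ideal.add_mem _ ?_ ?_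
      · rw [pow_succ]
        exact Ideal.mul_mem_mul (ih a ha).2 (hI _ (hI b hb))
      · rw [add_assoc, pow_add]
        exact Ideal.mul_mem_mul (ih a ha).1 (h1 b)
    · rw [map_add]
      exact Ideal.add_mem _ ha.1 hb.1
    · have e : χ (χ (a + b)) - χ (a + b) = (χ (χ a) - χ a) + (χ (χ b) - χ b) := by
        simp only [map_add]; ring
      rw [e]
      exact Ideal.add_mem _ ha.2 hb.2

/-- The differences of order `j` along a progression are divisible by `p ^ j`. -/
theorem padic [Algebra.FiniteType ℤ R] (φ : R →+* R) (e : R →+* A) (p : A)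
    [Finite (A ⧸ Ideal.span {p})] :
    ∃ n0 M, 0 < M ∧ ∀ (j : ℕ) (g : R) (n : ℕ),
      p ^ j ∣ (fwdDiff 1)^[j] (fun k => e ((φ ^ (n0 + M * k)) g)) (n + j) := by
  have : IsNoetherianRing R := Algebra.FiniteType.isNoetherianRing ℤ R
  obtain ⟨M1, p1, h1⟩ := hom_period φ ((Ideal.Quotient.mk (Ideal.span {p})).comp e)
  let π := ((Ideal.Quotient.mk (Ideal.span {p})).comp e).comp (φ ^ M1)
  let I := RingHom.ker π
  have : Finite (R ⧸ I) := Finite.of_injective _ (RingHom.kerLift_injective π)
  have := Ideal.finite_quotient_pow (IsNoetherian.noetherian I) 2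
  obtain ⟨M2, p2, h2⟩ := hom_period (φ ^ M1) (Ideal.Quotient.mk (I ^ 2))
  set χ := (φ ^ M1) ^ M2 with hχ
  have a0 : ∀ m g, π (((φ ^ M1) ^ m) g) = π g := fun m => by
    induction m with
    | zero => exact fun g => rfl
    | succ m ih =>
      intro g
      rw [pow_succ', RingHom.mul_def, RingHom.comp_apply, ← ih g]
      exact h1 _
  have a1 : ∀ g, χ g - g ∈ I := fun g => by
    rw [RingHom.mem_ker, map_sub, a0, sub_self]
  have a2 : ∀ g, χ (χ g) - χ g ∈ I ^ 2 := fun g => Ideal.Quotient.eq.1 (h2 g)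
  have a3 : ∀ k, ∀ g ∈ I ^ k, ∀ n, (χ ^ n) g ∈ I ^ k := fun k g hg n => by
    induction n with
    | zero => exact hg
    | succ n ih => rw [pow_succ']; exact (raise a1 a2 k _ ih).1
  have a4 : ∀ k, ∀ g ∈ I ^ k, p ^ k ∣ e ((φ ^ M1) g) := fun k g hg => by
    have l : I.map (e.comp (φ ^ M1)) ≤ Ideal.span {p} :=
      Ideal.map_le_iff_le_comap.2 fun x hx =>
        Ideal.mem_comap.2 (Ideal.Quotient.eq_zero_iff_mem.1 hx)
    have := Ideal.mem_map_of_mem (e.comp (φ ^ M1)) hg
    rw [Ideal.map_pow] at this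
    have := Ideal.pow_right_mono l k this
    rwa [Ideal.span_singleton_pow, Ideal.mem_span_singleton] at this
  have key : ∀ (j k : ℕ), ∀ g ∈ I ^ k, ∀ n,
      p ^ (k + j) ∣ (fwdDiff 1)^[j] (fun m => e ((φ ^ M1) ((χ ^ m) g))) (n + j) := by
    intro j
    induction j with
    | zero => exact fun k g hg n => a4 k _ (a3 k g hg n)
    | succ j ih =>
      intro k g hg n
      have := ih (k + 1) _ (raise a1 a2 k g hg).2 n
      rw [add_assoc, add_comm 1 j] at this
      rw [iterate_succ_apply, ← add_assoc n, ← fwdDiff_iter_comp_add]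
      refine (congrArg (fun u => p ^ (k + (j + 1)) ∣ (fwdDiff 1)^[j] u (n + j)) ?_).mp this
      funext m
      simp only [fwdDiff, map_sub, pow_succ, RingHom.mul_def, RingHom.comp_apply]
  refine ⟨M1, M1 * M2, by positivity, fun j g n => ?_⟩
  have := key j 0 g (by simp) n
  rw [zero_add] at this
  simpa only [pow_add, pow_mul, RingHom.mul_def, RingHom.comp_apply] using this

/-- Vanishing on long windows propagates. -/
theorem window {G : Type*} [AddCommGroup G] (y : ℕ → G) (j0 : ℕ) (h0 : 2 ≤ j0)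
    (h : ∀ j, j0 ≤ j → ∀ n, n ≤ 2 * j → (fwdDiff 1)^[j] y (n + j) = 0) (n : ℕ) :
    (fwdDiff 1)^[j0] y (n + j0) = 0 := by
  induction n using Nat.strong_induction_on with
  | _ n ih =>
    by_cases c : n ≤ 2 * j0
    · exact h j0 le_rfl n c
    obtain ⟨i, m, e, hm⟩ : ∃ i m, n = m + 2 * i ∧ m ≤ 1 := ⟨n / 2, n % 2, by omega, by omega⟩
    have := h (i + j0) (by omega) m (by omega)
    rw [iterate_add_apply, fwdDiff_iter_eq_sum_shift, Finset.sum_range_succ,
      Finset.sum_eq_zero fun k hk => ?_] at this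
    · simpa [e, show m + (i + j0) + i = m + 2 * i + j0 by ring] using this
    · have := ih (m + i + k) (by have := Finset.mem_range.1 hk; omega)
      rw [smul_eq_mul, mul_one, show m + (i + j0) + k = m + i + k + j0 by ring, this, smul_zero]

/-- A sequence with vanishing differences is given by a polynomial. -/
theorem exists_poly {K : Type*} [Field K] [CharZero K] (y : ℕ → K) (j : ℕ)
    (h : ∀ n, (fwdDiff 1)^[j] y (n + j) = 0) :
    ∃ q : Polynomial K, ∀ n, j ≤ n → y n = q.eval (n : K) := by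
  refine ⟨∑ i ∈ Finset.range j, Polynomial.C ((fwdDiff 1)^[i] y j / i.factorial) *
    (descPochhammer K i).comp (Polynomial.X - Polynomial.C (j : K)), fun n hn => ?_⟩
  obtain ⟨m, rfl⟩ := Nat.exists_eq_add_of_le hn
  have z : ∀ i, j ≤ i → (fwdDiff 1)^[i] y j = 0 := fun i hi => by
    obtain ⟨l, rfl⟩ := Nat.exists_eq_add_of_le' hi
    rw [iterate_add_apply, fwdDiff_iter_eq_sum_shift]
    exact Finset.sum_eq_zero fun k _ => by rw [smul_eq_mul, mul_one, add_comm j k, h, smul_zero]
  have e := shift_eq_sum_fwdDiff_iter 1 y m j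
  rw [smul_eq_mul, mul_one] at e
  rw [e, Polynomial.eval_finsetSum]
  have t : ∀ i, (Polynomial.C ((fwdDiff 1)^[i] y j / i.factorial) *
      (descPochhammer K i).comp (Polynomial.X - Polynomial.C (j : K))).eval ((j + m : ℕ) : K) =
      m.choose i • (fwdDiff 1)^[i] y j := fun i => by
    have : (i.factorial : K) ≠ 0 := by exact_mod_cast i.factorial_ne_zero
    simp only [Polynomial.eval_mul, Polynomial.eval_C, Polynomial.eval_comp, Polynomial.eval_sub,
      Polynomial.eval_X, Nat.cast_add, add_sub_cancel_left, descPochhammer_eval_eq_descFactorial,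
      Nat.descFactorial_eq_factorial_mul_choose, Nat.cast_mul, nsmul_eq_mul]
    field_simp
  simp only [t]
  have s1 : ∑ i ∈ Finset.range (m + 1), m.choose i • (fwdDiff 1)^[i] y j =
      ∑ i ∈ Finset.range (m + 1 + j), m.choose i • (fwdDiff 1)^[i] y j :=
    Finset.sum_subset (Finset.range_mono (by omega)) fun i _ hi => by
      rw [Nat.choose_eq_zero_of_lt (by simpa using hi), zero_smul]
  have s2 : ∑ i ∈ Finset.range j, m.choose i • (fwdDiff 1)^[i] y j =
      ∑ i ∈ Finset.range (m + 1 + j), m.choose i • (fwdDiff 1)^[i] y j :=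
    Finset.sum_subset (Finset.range_mono (by omega)) fun i _ hi => by
      rw [z i (by simpa using hi), smul_zero]
  rw [s1, s2]

end Pool.Agent.MP_c8dfda_nt.TG
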