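import Pool.Agent.MP_c8dfda_nt.tg.Orb

/-! Skew products over a translation. -/

namespace Pool.Agent.MP_c8dfda_nt.TG

open NumberField Filter Function Height Topology MvPolynomial

theorem lg {x y t : ℝ} {e f : ℕ} (hx : 1 ≤ x) (hy : 1 ≤ y) (ht : 1 ≤ t) (h : x ^ e ≤ t * y ^ f) :
    e * Real.log x ≤ Real.log t + f * Real.log y := by
  have := Real.log_le_log (by positivity) h
  rwa [Real.log_mul (by positivity) (by positivity), Real.log_pow, Real.log_pow] at this

variable {K : Type*} [Field K] {ι : Type*}

theorem aeval_opt {B : Type*} [CommRing B] [Algebra K B] (z : Option ι → B)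
    (g : MvPolynomial (Option ι) K) : aeval z g =
      eval₂ (Polynomial.aeval (z none)).toRingHom (fun i => z (some i)) (optionEquivRight K ι g) := by
  induction g using MvPolynomial.induction_on with
  | C a => simp
  | add p q hp hq => simp only [map_add, eval₂_add, hp, hq]
  | mul_X p i hp => cases i <;> simp [hp]

theorem eval_opt {s : Polynomial K} {n : ℕ} {z : Option ι → K} (h : z none = s.eval (n : K))
    (g : MvPolynomial (Option ι) K) :
    eval z g = ev s n (fun i => z (some i)) (optionEquivRight K ι g) := by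
  rw [ev, ← h]
  exact (aeval_opt z g).trans (congrArg (fun φ => eval₂ φ _ _) (RingHom.ext fun _ => by simp))

theorem deg_aeval {σ : Type*} (t : MvPolynomial σ K) (ht : t.totalDegree ≤ 1) (a : Polynomial K) :
    (Polynomial.aeval t a).totalDegree ≤ a.natDegree := by
  rw [Polynomial.aeval_eq_sum_range]
  refine (totalDegree_finsetSum _ _).trans (Finset.sup_le fun i hi => ?_)
  have := Finset.mem_range.1 hi
  refine (totalDegree_smul_le _ _).trans ((totalDegree_pow _ _).trans ?_)
  nlinarith

theorem deg_bind (g : MvPolynomial (Option ι) K) {d : ℕ}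
    (hd : (optionEquivRight K ι g).totalDegree ≤ d) : ∃ E : ℕ,
      ∀ (G : Option ι → MvPolynomial (Option ι) K) (D : ℕ), (G none).totalDegree ≤ 1 →
        (∀ i, (G i).totalDegree ≤ D) → (bind₁ G g).totalDegree ≤ d * D + E := by
  refine ⟨(optionEquivRight K ι g).support.sup fun m => ((optionEquivRight K ι g).coeff m).natDegree,
    fun G D h1 hD => ?_⟩
  rw [show bind₁ G g = aeval G g from rfl, aeval_opt, eval₂_eq]
  refine (totalDegree_finsetSum _ _).trans (Finset.sup_le fun m hm => ?_)
  refine (totalDegree_mul _ _).trans ((add_le_add ((deg_aeval _ h1 _).trans (Finset.le_sup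
    (f := fun m => ((optionEquivRight K ι g).coeff m).natDegree) hm)) ?_).trans_eq (add_comm _ _))
  refine (totalDegree_finsetProd _ _).trans (le_trans (Finset.sum_le_sum (g := fun i => m i * D)
    fun i _ => (totalDegree_pow _ _).trans (Nat.mul_le_mul_left _ (hD _))) ?_)
  rw [← Finset.sum_mul]
  exact Nat.mul_le_mul_right _ ((le_totalDegree hm).trans hd)

/-- The iterates of a polynomial map. -/
noncomputable abbrev itr {σ : Type*} (f : σ → MvPolynomial σ K) (n : ℕ) : σ → MvPolynomial σ K :=
  (fun G i => bind₁ G (f i))^[n] X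

theorem eval_itr {σ : Type*} (f : σ → MvPolynomial σ K) (P : σ → K) (m n : ℕ) :
    ∀ i, eval (orb f P m) (itr f n i) = orb f P (m + n) i := by
  induction n with
  | zero => exact fun i => eval_X _
  | succ n ih =>
    intro i
    rw [itr, iterate_succ_apply', eval_bind, ← add_assoc, orb_succ]
    exact congrArg (fun z => eval z (f i)) (funext ih)

theorem fin_family {A : Type*} [CommRing A] [IsNoetherianRing A] {Γ : Type*} (T : Γ → A) :
    ∃ t : Finset Γ, ∀ I : Ideal A, (∀ g ∈ t, T g ∈ I) → ∀ g, T g ∈ I := by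
  classical
  obtain ⟨s, h1, h2⟩ := (Submodule.fg_span_iff_fg_span_finset_subset (R := A) (Set.range T)).1
    (IsNoetherian.noetherian _)
  obtain ⟨t, rfl⟩ := Finset.subset_set_image_iff.1 (h1.trans Set.image_univ.symm.subset) |>.imp
    fun _ h => h.2
  refine ⟨t, fun I hI g => ?_⟩
  have : T g ∈ Submodule.span A (Set.range T) := Submodule.subset_span ⟨g, rfl⟩
  rw [h2] at this
  refine Submodule.span_le.2 (fun a ha => ?_) this
  obtain ⟨b, hb, rfl⟩ := Finset.mem_image.1 ha
  exact hI b hb

variable [NumberField K] [Fintype ι] {f : Option ι → MvPolynomial (Option ι) K} {β : K} {d : ℕ}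

omit [NumberField K] [Fintype ι] in
theorem x_orb (hβ : f none = X none + C β) (P : Option ι → K) (k n : ℕ) : orb f P (n + k) none =
    (Polynomial.C β * Polynomial.X + Polynomial.C (P none + k * β)).eval (n : K) := by
  have : ∀ n : ℕ, orb f P n none = P none + n * β := fun n => by
    induction n with
    | zero => simp [orb]
    | succ n ih => rw [orb_succ, hβ, map_add, eval_X, eval_C, ih]; push_cast; ring
  rw [this]
  simp
  ring

theorem step_up (hβ : f none = X none + C β) (hd : 2 ≤ d)
    (hf : ∀ i, (optionEquivRight K ι (f (some i))).totalDegree ≤ d) (P : Option ι → K)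
    {v : AbsoluteValue K ℝ} (hv : Pl v) :
    ∃ C : ℝ, ∀ᶠ n : ℕ in atTop, Real.log (W v (orb f P n)) ≤ C * d ^ n := by
  choose c c1 c2 c3 using fun i => loc_le
    (Polynomial.C β * Polynomial.X + Polynomial.C (P none + (0 : ℕ) * β))
    (optionEquivRight K ι (f (some i)))
  have hA := (sx_poly (Polynomial.C β * Polynomial.X + Polynomial.C (P none + (1 : ℕ) * β))).add
    (Sx.sum Finset.univ c1)
  refine upper _ (d := d) (by exact_mod_cast hd) ((hA.log 1 one_pos).mono fun n hn => ?_)
  rw [← x_orb hβ] at hn
  have s0 : 0 ≤ ∑ i, c i n := Finset.sum_nonneg fun i _ => (c1 i).1 n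
  have a1 := one_le_mulHeight₁ (orb f P (n + 1) none)
  have w1 := one_le_W v (orb f P n)
  have p1 : 1 ≤ W v (orb f P n) ^ d := one_le_pow₀ w1
  have := lg (e := 1) (f := d) (one_le_W v (orb f P (n + 1))) w1
    (t := mulHeight₁ (orb f P (n + 1) none) + ∑ i, c i n) (by linarith) (by
      rw [pow_one]
      refine W_le _ _ (by nlinarith) fun i => ?_
      cases i with
      | none => nlinarith [hv.le_height (orb f P (n + 1) none)]
      | some i =>
        rw [orb_succ, eval_opt (z := orb f P n) (x_orb hβ P 0 n)]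
        refine (c3 i n v hv _ _ w1 (fun l => le_W v _ _) d fun m hm =>
          (le_totalDegree hm).trans (hf i)).trans (mul_le_mul_of_nonneg_right ?_ (by positivity))
        have := Finset.single_le_sum (f := fun i => c i n) (fun i _ => (c1 i).1 n)
          (Finset.mem_univ i)
        linarith)
  push_cast at this
  linarith

theorem escape [Nonempty ι] (hβ : f none = X none + C β) (hd : 2 ≤ d)
    (hf : ∀ i, (optionEquivRight K ι (f (some i))).totalDegree ≤ d)
    (hreg : ∀ y : ι → AlgebraicClosure (RatFunc K), y ≠ 0 →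
      (∀ i, aeval y (homogeneousComponent d (optionEquivRight K ι (f (some i)))) = 0) →
      ∃ G : MvPolynomial (Option ι) K,
        (optionEquivRight K ι (bind₁ f G)).totalDegree < (optionEquivRight K ι G).totalDegree ∧
        aeval y (homogeneousComponent (optionEquivRight K ι G).totalDegree
          (optionEquivRight K ι G)) ≠ 0) (P : Option ι → K)
    (hP : ∀ G : MvPolynomial (Option ι) K, (∀ n, eval (orb f P n) G = 0) → G = 0) :
    ∃ v, Pl v ∧ ∃ c : ℝ, 0 < c ∧ ∀ᶠ n : ℕ in atTop, c * d ^ n ≤ Real.log (W v (orb f P n)) := by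
  classical
  have β0 : β ≠ 0 := fun e => X_sub_ne none (P none) (hP _ fun n => by
    simpa [e, sub_eq_zero] using x_orb hβ P 0 n)
  obtain ⟨t, ht⟩ := fin_family fun G : {G : MvPolynomial (Option ι) K //
      (optionEquivRight K ι (bind₁ f G)).totalDegree < (optionEquivRight K ι G).totalDegree} =>
    homogeneousComponent (optionEquivRight K ι G.1).totalDegree (optionEquivRight K ι G.1)
  let e : t → ℕ := fun j => (optionEquivRight K ι j.1.1).totalDegree
  have e1 : ∀ j, 1 ≤ e j := fun j => Nat.one_le_of_lt j.1.2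
  obtain ⟨c, c1, c2, c3⟩ := loc_ge (J := ι ⊕ t)
    (Polynomial.C β * Polynomial.X + Polynomial.C (P none + (1 : ℕ) * β))
    (by rw [Polynomial.natDegree_linear β0]; exact one_ne_zero)
    (Sum.elim (fun i => optionEquivRight K ι (f (some i))) fun j => optionEquivRight K ι j.1.1)
    (Sum.elim (fun _ => d) e) (Sum.forall.2 ⟨fun _ => Nat.one_le_of_lt hd, e1⟩)
    (Sum.forall.2 ⟨hf, fun _ => le_rfl⟩) fun y hy => by
      by_contra y0
      obtain ⟨G, h1, h2⟩ := hreg y y0 fun i => hy (.inl i)
      exact h2 (ht (RingHom.ker (aeval y)) (fun g hg => hy (.inr ⟨g, hg⟩)) ⟨G, h1⟩)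
  choose b b1 b2 b3 using fun j : t => loc_le
    (Polynomial.C β * Polynomial.X + Polynomial.C (P none + (0 : ℕ) * β))
    (optionEquivRight K ι (bind₁ f j.1.1))
  have hA := c1.mul ((sx_poly (Polynomial.C β * Polynomial.X +
    Polynomial.C (P none + (1 : ℕ) * β))).add (Sx.sum Finset.univ b1))
  obtain ⟨E, E1, hE⟩ : ∃ E : ℝ, 1 ≤ E ∧ ∀ j, (e j : ℝ) ≤ E := by
    refine ⟨((1 + ∑ j, e j : ℕ) : ℝ), by exact_mod_cast Nat.le_add_right _ _, fun j => ?_⟩
    exact_mod_cast (Finset.single_le_sum (f := e) (fun _ _ => Nat.zero_le _)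
      (Finset.mem_univ j)).trans (Nat.le_add_left _ _)
  have θ0 : 0 ≤ 1 - 1 / E := sub_nonneg.2 (div_le_one_of_le₀ E1 (by linarith))
  by_contra z
  refine not_slow f P hP (slow_of _ fun v hv => (dich (fun n => Real.log (W v (orb f P n))) _
    (d := d) θ0 (sub_lt_self _ (by positivity)) (by exact_mod_cast hd)
    (fun n => Real.log_nonneg (one_le_W _ _)) hA.log ?_).resolve_right fun h => z ⟨v, hv, h⟩)
  filter_upwards [c3] with n hn
  rw [← x_orb hβ]
  have s0 : 0 ≤ ∑ j, b j n := Finset.sum_nonneg fun j _ => (b1 j).1 n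
  have a1 := one_le_mulHeight₁ (orb f P (n + 1) none)
  have a2 := hv.le_height (orb f P (n + 1) none)
  have a3 : ∀ j, b j n ≤ ∑ j, b j n := fun j =>
    Finset.single_le_sum (f := fun j => b j n) (fun j _ => (b1 j).1 n) (Finset.mem_univ j)
  have cn := c2 n
  generalize mulHeight₁ (orb f P (n + 1) none) = H at a1 a2 ⊢
  generalize ∑ j, b j n = B at s0 a3 ⊢
  have t1 : 1 ≤ c n * (H + B) := by nlinarith
  have w0 := one_le_W v (orb f P n)
  have w1 := one_le_W v (orb f P (n + 1))
  have w2 := one_le_W v (orb f P (n + 2))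
  have l0 := Real.log_nonneg w0
  have small : W v (orb f P (n + 1)) ≤ H → Real.log (W v (orb f P (n + 1))) ≤
      (1 - 1 / E) * Real.log (W v (orb f P n)) + Real.log (c n * (H + B)) := fun h =>
    (Real.log_le_log (by positivity) (by nlinarith)).trans
      (le_add_of_nonneg_left (mul_nonneg θ0 l0))
  rcases W_eq v (orb f P (n + 1)) with h | ⟨_ | i, h⟩
  · exact .inr (small (h ▸ a1))
  · exact .inr (small (h ▸ a2))
  obtain ⟨l | j, hj⟩ := hn v hv (fun i => orb f P (n + 1) (some i)) i (h ▸ w1)
    fun l => h ▸ le_W v _ _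
  · simp only [Sum.elim_inl] at hj
    rw [← eval_opt (x_orb hβ P 1 n), ← orb_succ, ← h] at hj
    have := lg (f := 1) w1 w2 t1 (hj.trans (by
      rw [pow_one]
      exact mul_le_mul (by nlinarith) (max_le w2 (le_W v _ _)) (by positivity) (by positivity)))
    push_cast at this
    exact .inl (by linarith)
  · simp only [Sum.elim_inr] at hj
    rw [← eval_opt (x_orb hβ P 1 n), ← h, funext (orb_succ f P n), ← eval_bind,
      eval_opt (z := orb f P n) (x_orb hβ P 0 n), ← funext (orb_succ f P n)] at hj
    obtain ⟨k, hk⟩ : ∃ k, e j = k + 1 := ⟨e j - 1, by have := e1 j; omega⟩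
    have p1 : 1 ≤ W v (orb f P n) ^ k := one_le_pow₀ w0
    have q := b3 j n v hv _ _ w0 (fun l => le_W v (orb f P n) (some l)) k fun m hm =>
      Nat.lt_succ_iff.1 (((le_totalDegree hm).trans_lt j.1.2).trans_eq hk)
    have := lg (f := k) w1 w0 t1 (hj.trans (by
      rw [mul_assoc]
      exact mul_le_mul_of_nonneg_left (max_le (by nlinarith) (q.trans (by nlinarith [a3 j])))
        (by positivity)))
    have u := hE j
    rw [hk] at this u
    push_cast at this u
    have lt := Real.log_nonneg t1
    have k0 : (0 : ℝ) ≤ k := k.cast_nonneg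
    have r : (k : ℝ) ≤ (k + 1) * (1 - 1 / E) := by
      have : (k + 1) * (1 / E) ≤ 1 := by rw [mul_one_div]; exact div_le_one_of_le₀ u (by linarith)
      linarith
    refine .inr (le_of_mul_le_mul_left ?_ (by positivity : (0 : ℝ) < k + 1))
    nlinarith [mul_le_mul_of_nonneg_right r l0]

theorem skew [Nonempty ι] (hβ : f none = X none + C β) (hd : 2 ≤ d)
    (hf : ∀ i, (optionEquivRight K ι (f (some i))).totalDegree ≤ d)
    (hreg : ∀ y : ι → AlgebraicClosure (RatFunc K), y ≠ 0 →
      (∀ i, aeval y (homogeneousComponent d (optionEquivRight K ι (f (some i)))) = 0) →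
      ∃ G : MvPolynomial (Option ι) K,
        (optionEquivRight K ι (bind₁ f G)).totalDegree < (optionEquivRight K ι G).totalDegree ∧
        aeval y (homogeneousComponent (optionEquivRight K ι G).totalDegree
          (optionEquivRight K ι G)) ≠ 0) (P : Option ι → K)
    (hP : ∀ G : MvPolynomial (Option ι) K, (∀ n, eval (orb f P n) G = 0) → G = 0) :
    Tendsto (fun n : ℕ => ((Finset.univ.sup fun i => (itr f n i).totalDegree : ℕ) : ℝ) ^
      (1 / (n : ℝ))) atTop (𝓝 d) ∧
    Tendsto (fun n : ℕ => logHeight (fun j : Option (Option ι) => j.elim 1 (orb f P n)) ^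
      (1 / (n : ℝ))) atTop (𝓝 d) := by
  obtain ⟨v, hv, c, c0, hc⟩ := escape hβ hd hf hreg P hP
  have d2 : (2 : ℝ) ≤ d := by exact_mod_cast hd
  constructor
  · obtain ⟨C, hC⟩ := step_up hβ hd hf P hv
    have C0 : 0 < C := by
      obtain ⟨n, p, q⟩ := (hc.and hC).exists
      exact c0.trans_le (le_of_mul_le_mul_right (p.trans q) (by positivity))
    set D : ℕ → ℕ := fun n => Finset.univ.sup fun i => (itr f n i).totalDegree
    have hD : ∀ n i, (itr f n i).totalDegree ≤ D n := fun n i =>
      Finset.le_sup (f := fun i => (itr f n i).totalDegree) (Finset.mem_univ i)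
    have x1 : ∀ n, (itr f n none).totalDegree ≤ 1 := fun n => by
      induction n with
      | zero => exact (totalDegree_X _).le
      | succ n ih =>
        rw [itr, iterate_succ_apply', hβ, map_add, bind₁_X_right, bind₁_C_right]
        exact (totalDegree_add _ _).trans (max_le ih (by simp))
    choose E hE using fun i => deg_bind (f (some i)) (hf i)
    obtain ⟨C', hC'⟩ := upper (fun n => (D n : ℝ)) d2 ((eventually_ge_atTop
      (1 + Finset.univ.sup E)).mono fun n hn => by
        have : D (n + 1) ≤ d * D n + n := Finset.sup_le fun i _ => by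
          cases i with
          | none => have := x1 (n + 1); omega
          | some i =>
            have := Finset.le_sup (f := E) (Finset.mem_univ i)
            rw [itr, iterate_succ_apply']
            exact (hE i _ _ (x1 n) (hD n)).trans (by omega)
        exact_mod_cast this)
    refine root_lim (fun n => (D n : ℝ)) (div_pos c0 C0) (by positivity)
      (Eventually.of_forall fun n => ?_) hC'
    rw [div_mul_eq_mul_div, div_le_iff₀ C0]
    by_contra z
    let T : ℝ := 1 + ∑ i, ∑ m ∈ (itr f n i).support, v ((itr f n i).coeff m)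
    have s0 : ∀ i, 0 ≤ ∑ m ∈ (itr f n i).support, v ((itr f n i).coeff m) := fun i =>
      Finset.sum_nonneg fun _ _ => v.nonneg _
    have T1 : 1 ≤ T := le_add_of_nonneg_right (Finset.sum_nonneg fun i _ => s0 i)
    obtain ⟨m, p, q, r⟩ := (((tendsto_add_atTop_nat n).eventually hc).and (hC.and
      (((tendsto_pow_atTop_atTop_of_one_lt (r := (d : ℝ)) (by linarith)).const_mul_atTop
        (sub_pos.2 (not_le.1 z))).eventually_gt_atTop (Real.log T)))).exists
    have w0 := one_le_W v (orb f P m)
    have := lg (e := 1) (f := D n) (one_le_W v (orb f P (m + n))) w0 T1 (by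
      rw [pow_one]
      refine W_le _ _ (one_le_mul_of_one_le_of_one_le T1 (one_le_pow₀ w0)) fun i => ?_
      rw [← eval_itr]
      refine (ev_le v (RingHom.id K) _ _ w0 (le_W v _) fun m hm =>
        (le_totalDegree hm).trans (hD n i)).trans (mul_le_mul_of_nonneg_right ?_ (by positivity))
      exact (Finset.single_le_sum (fun i _ => s0 i) (Finset.mem_univ i)).trans
        (le_add_of_nonneg_left zero_le_one))
    rw [pow_add] at p
    push_cast at this
    nlinarith [mul_le_mul_of_nonneg_left q (D n).cast_nonneg]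
  · obtain ⟨S, hS, -⟩ := orb_gap f P
    choose A hA using fun w : InfinitePlace K => step_up hβ hd hf P (v := w.1) (.inl ⟨w, rfl⟩)
    choose B hB using fun w : FinitePlace K => step_up hβ hd hf P (v := w.1) (.inr ⟨w, rfl⟩)
    let C : ℝ := ∑ w, |A w| + ∑ w ∈ S, |B w|
    have s1 : 0 ≤ ∑ w, |A w| := Finset.sum_nonneg fun _ _ => abs_nonneg _
    have s2 : 0 ≤ ∑ w ∈ S, |B w| := Finset.sum_nonneg fun _ _ => abs_nonneg _
    refine root_lim _ (C := (Module.finrank ℚ K + S.card : ℕ) * C) c0 (by positivity)
      (hc.mono fun n p => p.trans (Real.log_le_log (zero_lt_one.trans_le (one_le_W _ _))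
        (W_le_height hv _))) ?_
    filter_upwards [eventually_all.2 hA, (eventually_all_finset S).2 fun w _ => hB w] with n p q
    have k : ∀ (u : AbsoluteValue K ℝ) (a : ℝ), Real.log (W u (orb f P n)) ≤ a * d ^ n → |a| ≤ C →
        W u (orb f P n) ≤ Real.exp (C * d ^ n) := fun u a h l =>
      (Real.log_le_iff_le_exp (zero_lt_one.trans_le (one_le_W _ _))).1 (h.trans
        (mul_le_mul_of_nonneg_right ((le_abs_self a).trans l) (by positivity)))
    have := height_le S (orb f P n) (B := Real.exp (C * d ^ n))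
      (Real.one_le_exp (mul_nonneg (add_nonneg s1 s2) (by positivity)))
      (fun w => k _ _ (p w) ((Finset.single_le_sum (f := fun w => |A w|) (fun _ _ => abs_nonneg _)
        (Finset.mem_univ w)).trans (le_add_of_nonneg_right s2)))
      (fun w hw => k _ _ (q w hw) ((Finset.single_le_sum (f := fun w => |B w|)
        (fun _ _ => abs_nonneg _) hw).trans (le_add_of_nonneg_left s1))) fun w hw => hS w hw n
    refine (Real.log_le_log (mulHeight_pos _) this).trans_eq ?_
    rw [Real.log_pow, Real.log_exp, mul_assoc]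

end Pool.Agent.MP_c8dfda_nt.TG
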